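import Pool.Agent.Helper13.LG.G6

/-!
# HP: 100 percent of all superelliptic curves: definitions
-/

universe u

namespace Pool.Agent.HP

open Polynomial

/-- `Res_{d, d-1}(f, f')`: up to sign the product of the leading coefficient and the discriminant
of the polynomial `f` of formal degree `d`. -/
noncomputable def RR {R : Type*} [CommRing R] (d : ℕ) (f : R[X]) : R :=
  resultant f (derivative f) d (d - 1)

theorem RR_map {R S : Type*} [CommRing R] [CommRing S] (d : ℕ) (f : R[X]) (φ : R →+* S) :
    RR d (f.map φ) = φ (RR d f) := by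
  unfold RR
  rw [derivative_map, resultant_map_map]

/-- The polynomial `p` in two variables has total degree at most `m`. -/
def TD {F : Type*} [CommRing F] (p : F[X][X]) (m : ℕ) : Prop :=
  ∀ i, p.coeff i ≠ 0 → (p.coeff i).natDegree + i ≤ m

/-- The polynomial `∑_i (∑_q b_{i,q} U^q) x^i` (outer variable `x`). -/
noncomputable def topPoly {R : Type*} [CommRing R] {d m : ℕ} (b : Fin (d + 1) × Fin (m + 1) → R) :
    R[X][X] :=
  ∑ i : Fin (d + 1), C (∑ q : Fin (m + 1), C (b (i, q)) * X ^ (q : ℕ)) * X ^ (i : ℕ)

theorem topPoly_map {R S : Type*} [CommRing R] [CommRing S] {d m : ℕ}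
    (b : Fin (d + 1) × Fin (m + 1) → R) (φ : R →+* S) :
    (topPoly b).map (mapRingHom φ) = topPoly fun i => φ (b i) := by
  unfold topPoly
  rw [Polynomial.map_sum]
  refine Finset.sum_congr rfl fun i _ => ?_
  rw [Polynomial.map_mul, Polynomial.map_pow, map_X, map_C, map_sum]
  congr 2
  refine Finset.sum_congr rfl fun q _ => ?_
  rw [map_mul, map_pow, coe_mapRingHom, map_C, map_X]

end Pool.Agent.HP
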