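import Pool.Agent.Helper13.HP.Defs

/-!
# Block HP-P1: the total degree of the resultant

`TD` is closed under sums, products (`m + m'`), and `0`, multiplication by constants.  `RR d f` is the
determinant of the Sylvester matrix, of size `d + (d - 1) = 2 d - 1` (`d ≥ 1`), whose entries are
`0` or coefficients of `f` or of `f'` (integral multiples of coefficients of `f`): `TD · m`.  Expand the
determinant (`Matrix.det_apply`).  Compare `natDegree_det_27`, `natDegree_res_27` in LG/G6.lean.

`RR_lead`: the coefficient of `U^M`.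
-/

universe u

namespace Pool.Agent.HP

open Polynomial Pool.Agent.LT

private theorem TD_zero_h26 {F : Type u} [Field F] (m : ℕ) : TD (0 : F[X][X]) m := fun i h =>
  absurd (coeff_zero i) h

private theorem TD_add_h26 {F : Type u} [Field F] {p q : F[X][X]} {m : ℕ} (hp : TD p m) (hq : TD q m) :
    TD (p + q) m := by
  intro i h
  rw [coeff_add] at h ⊢
  by_cases h1 : p.coeff i = 0
  · rw [h1, zero_add] at h ⊢
    exact hq i h
  · by_cases h2 : q.coeff i = 0
    · rw [h2, add_zero] at h ⊢
      exact hp i h
    · have h3 := hp i h1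
      have h4 := hq i h2
      have h5 := natDegree_add_le (p.coeff i) (q.coeff i)
      have h6 : max (p.coeff i).natDegree (q.coeff i).natDegree ≤ m - i := max_le (by omega) (by omega)
      omega

private theorem TD_sum_h26 {F : Type u} [Field F] {ι : Type*} (s : Finset ι) {p : ι → F[X][X]} {m : ℕ}
    (hp : ∀ i ∈ s, TD (p i) m) : TD (∑ i ∈ s, p i) m := by
  classical
  induction s using Finset.induction_on with
  | empty => rw [Finset.sum_empty]; exact TD_zero_h26 m
  | insert a s ha ih =>
    rw [Finset.sum_insert ha]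
    exact TD_add_h26 (hp a (Finset.mem_insert_self a s)) (ih fun i hi => hp i (Finset.mem_insert_of_mem hi))

private theorem TD_mul_h26 {F : Type u} [Field F] {p q : F[X][X]} {m m' : ℕ} (hp : TD p m)
    (hq : TD q m') : TD (p * q) (m + m') := by
  intro i h
  rw [coeff_mul] at h ⊢
  have h0 : i ≤ m + m' := by
    obtain ⟨x, hx, hne⟩ := Finset.exists_ne_zero_of_sum_ne_zero h
    have h1 := hp x.1 (left_ne_zero_of_mul hne)
    have h2 := hq x.2 (right_ne_zero_of_mul hne)
    have h3 := Finset.HasAntidiagonal.mem_antidiagonal.1 hx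
    omega
  have h1 : (∑ x ∈ Finset.HasAntidiagonal.antidiagonal i, p.coeff x.1 * q.coeff x.2).natDegree ≤ m + m' - i := by
    refine natDegree_sum_le_of_forall_le _ _ fun x hx => ?_
    by_cases hne : p.coeff x.1 * q.coeff x.2 = 0
    · rw [hne, natDegree_zero]
      exact Nat.zero_le _
    · have h1 := hp x.1 (left_ne_zero_of_mul hne)
      have h2 := hq x.2 (right_ne_zero_of_mul hne)
      have h3 := Finset.HasAntidiagonal.mem_antidiagonal.1 hx
      have h4 := natDegree_mul_le (p := p.coeff x.1) (q := q.coeff x.2)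
      omega
  omega

private theorem TD_neg_h26 {F : Type u} [Field F] {p : F[X][X]} {m : ℕ} (hp : TD p m) : TD (-p) m := by
  intro i h
  rw [coeff_neg] at h ⊢
  rw [natDegree_neg]
  exact hp i (neg_ne_zero.1 h)

private theorem TD_one_h26 {F : Type u} [Field F] : TD (1 : F[X][X]) 0 := by
  intro i h
  by_cases hi : i = 0
  · subst hi
    rw [coeff_one_zero, natDegree_one]
  · rw [coeff_one, if_neg hi] at h
    exact absurd rfl h

private theorem TD_natCast_h26 {F : Type u} [Field F] (n : ℕ) : TD (n : F[X][X]) 0 := by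
  induction n with
  | zero => rw [Nat.cast_zero]; exact TD_zero_h26 0
  | succ n ih => rw [Nat.cast_succ]; exact TD_add_h26 ih TD_one_h26

private theorem TD_prod_h26 {F : Type u} [Field F] {ι : Type*} (s : Finset ι) {p : ι → F[X][X]} {m : ℕ}
    (hp : ∀ i ∈ s, TD (p i) m) : TD (∏ i ∈ s, p i) (s.card * m) := by
  classical
  induction s using Finset.induction_on with
  | empty => rw [Finset.prod_empty, Finset.card_empty, zero_mul]; exact TD_one_h26
  | insert a s ha ih =>
    rw [Finset.prod_insert ha, Finset.card_insert_of_notMem ha, Nat.succ_mul, Nat.add_comm]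
    exact TD_mul_h26 (hp a (Finset.mem_insert_self a s))
      (ih fun i hi => hp i (Finset.mem_insert_of_mem hi))

private theorem TD_det_h26 {F : Type u} [Field F] {n : ℕ} (M : Matrix (Fin n) (Fin n) F[X][X]) {m : ℕ}
    (h : ∀ i j, TD (M i j) m) : TD M.det (n * m) := by
  rw [Matrix.det_apply]
  refine TD_sum_h26 _ fun σ _ => ?_
  have h1 : TD (∏ i, M (σ i) i) (n * m) := by
    have h2 := TD_prod_h26 (Finset.univ : Finset (Fin n)) (p := fun i => M (σ i) i) fun i _ => h _ _
    rwa [Finset.card_univ, Fintype.card_fin] at h2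
  rcases Int.units_eq_one_or (Equiv.Perm.sign σ) with h2 | h2
  · rw [h2, one_smul]
    exact h1
  · rw [h2, Units.neg_smul, one_smul]
    exact TD_neg_h26 h1

theorem TD_RR {F : Type u} [Field F] {f : F[X][X][X]} {m d : ℕ} (hd : 1 ≤ d)
    (hf : ∀ i, TD (f.coeff i) m) : TD (RR d f) ((2 * d - 1) * m) := by
  have hf' : ∀ i, TD ((derivative f).coeff i) m := by
    intro i
    rw [coeff_derivative]
    have h1 : ((i : F[X][X]) + 1) = ((i + 1 : ℕ) : F[X][X]) := by push_cast; rfl
    rw [h1]
    have := TD_mul_h26 (hf (i + 1)) (TD_natCast_h26 (F := F) (i + 1))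
    rwa [add_zero] at this
  have h1 : 2 * d - 1 = d + (d - 1) := by omega
  rw [h1]
  unfold RR resultant
  refine TD_det_h26 _ fun i j => ?_
  rw [sylvester, Matrix.of_apply]
  refine Fin.addCases (fun j₁ => ?_) (fun j₁ => ?_) j
  · rw [Fin.addCases_left]
    split_ifs
    · exact hf' _
    · exact TD_zero_h26 m
  · rw [Fin.addCases_right]
    split_ifs
    · exact hf _
    · exact TD_zero_h26 m

/-- A polynomial of total degree at most `M` whose value at `t = 0` has degree `M` in `u` and is
separable is a good discriminant. -/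
theorem goodDisc_of {F : Type u} [Field F] {Δ : F[X][X]} {M : ℕ} (h : TD Δ M)
    (h1 : (Δ.map (evalRingHom 0)).natDegree = M) (h2 : (Δ.map (evalRingHom 0)).Separable) :
    GoodDisc Δ := by
  have h3 : (Δ.map (evalRingHom 0)) ≠ 0 := h2.ne_zero
  have h4 : (Δ.map (evalRingHom 0)).coeff M ≠ 0 := by
    rw [← h1]
    exact leadingCoeff_ne_zero.2 h3
  have h5 : Δ.coeff M ≠ 0 := by
    intro h0
    apply h4
    rw [coeff_map, h0, map_zero]
  have h6 := h M h5
  have h7 : (Δ.coeff M).natDegree = 0 := by omega
  have h8 : Δ.natDegree = M := by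
    refine le_antisymm ?_ (le_natDegree_of_ne_zero h5)
    rw [natDegree_le_iff_coeff_eq_zero]
    intro N hN
    by_contra hne
    have := h N hne
    omega
  refine ⟨⟨(Δ.coeff M).coeff 0, ?_, ?_⟩, h2⟩
  · intro h0
    apply h5
    rw [eq_C_of_natDegree_eq_zero h7, h0, C_0]
  · rw [leadingCoeff, h8]
    exact eq_C_of_natDegree_eq_zero h7

/-- If `RR d f ≠ 0` then `f` has degree `d` and `RR d f` is the product of the leading coefficient and the
discriminant up to sign. -/
theorem RR_eq {R : Type u} [CommRing R] [IsDomain R] {f : R[X]} {d : ℕ} (hd : 1 ≤ d)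
    (hf : f.natDegree ≤ d) (h : RR d f ≠ 0) :
    f.natDegree = d ∧ f.leadingCoeff * f.discr ∣ RR d f := by
  have h1 : f.natDegree = d := by
    by_contra hne
    have hlt : f.natDegree < d := lt_of_le_of_ne hf hne
    apply h
    unfold RR
    by_cases hd1 : d = 1
    · subst hd1
      have h2 : f.natDegree = 0 := by omega
      rw [eq_C_of_natDegree_eq_zero h2, derivative_C]
      simp
    · refine resultant_eq_zero_of_lt_lt _ _ _ _ hlt ?_
      have := natDegree_derivative_le f
      omega
  refine ⟨h1, ?_⟩
  have h2 : 0 < f.degree := natDegree_pos_iff_degree_pos.1 (by omega)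
  have h3 := resultant_deriv h2
  rw [h1] at h3
  unfold RR
  rw [h3, mul_assoc]
  exact Dvd.intro_left _ rfl

end Pool.Agent.HP
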