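import Pool.Agent.Helper13.HP.P2b

/-!
# Block HP-P2: a two parameter family with squarefree discriminant

`E = RR d (famS F d) ∈ F[U][T]` (outer variable `T`), `D = RR d (fam F d) ∈ F[T][U]`.

`squarefree_E`.  `Res_{d-1,d-2}(E, ∂E/∂T) ∈ F[U]` is not zero: its value at `U = 1` is the resultant
(`resultant_map_map`) of `E(1, T)`, which is of degree `d - 1` (`lead_E`: the leading coefficient `c U^d` does not
vanish at `U = 1`), and its derivative of degree `d - 2`, and it is not zero by `separable_E1`
(`resultant_ne_zero`, or `resultant_eq_zero_iff`).  So `E` is coprime to its derivative over `F(U)` (`FractionRing F[X]`;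
the degrees do not change) and squarefree there.  Let `y * y ∣ E` in `F[U][T]`.  The image of `y` over `F(U)` is a
unit, so `y = C z` with `z ∈ F[U]`; `z` divides the leading coefficient `c U^d` of `E`
(`C z ∣ E` means that `z` divides all coefficients), so `z` is a constant times `U^k`, and if `k ≥ 1` then `U²` divides
`E`, which contradicts `not_sq_dvd_E`.  So `y` is a unit.

`squarefree_fam`.  `Bivariate.swap` (a ring isomorphism `F[X][X] ≃ F[X][X]` exchanging `C X` and `X`) maps `fam` to
`famS` coefficientwise, so it maps `D` to `E` (`RR_map`).  Squarefreeness is preserved by ring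
isomorphisms (`MulEquiv`).
-/

universe u

namespace Pool.Agent.HP

open Polynomial Pool.Agent.LT

/-- The family `U (x^d - x^(d-1) - x) + x^(d-1) + T` over `F[T][U]`. -/
noncomputable def fam (F : Type u) [Field F] (d : ℕ) : F[X][X][X] :=
  C X * (X ^ d - X ^ (d - 1) - X) + X ^ (d - 1) + C (C X)

theorem squarefree_E (F : Type u) [Field F] [CharZero F] {d : ℕ} (hd : 3 ≤ d) :
    Squarefree (RR d (famS F d)) := by
  intro y hy
  have hdeg := natDegree_E F hd
  obtain ⟨c, hc0, hlc⟩ := lead_E F hd
  have hsep := separable_E1 F hd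
  have hnot := not_sq_dvd_E F hd
  set E := RR d (famS F d) with hE
  have hE0 : E ≠ 0 := by
    intro h0
    rw [h0, natDegree_zero] at hdeg
    omega
  -- the leading coefficient of `y`
  have h1 : y.leadingCoeff ∣ (X : F[X]) ^ d := by
    obtain ⟨w, hw⟩ := hy
    have h2 : y.leadingCoeff ∣ C c * X ^ d := by
      rw [← hlc, hw, leadingCoeff_mul, leadingCoeff_mul, mul_assoc]
      exact dvd_mul_right _ _
    have h3 : IsUnit (C c : F[X]) := isUnit_C.2 (isUnit_iff_ne_zero.2 hc0)
    exact (IsUnit.dvd_mul_left h3).1 h2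
  obtain ⟨k, -, hk⟩ := (dvd_prime_pow prime_X d).1 h1
  have hlc1 : evalRingHom (1 : F) y.leadingCoeff ≠ 0 := by
    obtain ⟨e, he⟩ := hk
    intro h0
    have h2 := congrArg (evalRingHom (1 : F)) he
    rw [map_mul, h0, zero_mul, map_pow, coe_evalRingHom, eval_X, one_pow] at h2
    exact zero_ne_one h2
  -- the degree of `y`
  have hunit : IsUnit (y.map (evalRingHom (1 : F))) := by
    refine hsep.squarefree _ ?_
    have h2 := Polynomial.map_dvd (evalRingHom (1 : F)) hy
    rwa [Polynomial.map_mul] at h2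
  have hy0 : y.natDegree = 0 := by
    rw [← natDegree_map_of_leadingCoeff_ne_zero _ hlc1]
    exact natDegree_eq_zero_of_isUnit hunit
  have hyC : y = C y.leadingCoeff := by
    rw [leadingCoeff, hy0]
    exact eq_C_of_natDegree_eq_zero hy0
  rcases Nat.eq_zero_or_pos k with hk0 | hk0
  · rw [hk0, pow_zero] at hk
    rw [hyC]
    exact isUnit_C.2 (associated_one_iff_isUnit.1 hk)
  · exfalso
    apply hnot
    have h2 : (X : F[X]) ∣ y.leadingCoeff :=
      (dvd_pow_self X hk0.ne').trans hk.symm.dvd
    have h3 : (C X : F[X][X]) ∣ y := by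
      rw [hyC]
      exact map_dvd C h2
    rw [sq]
    exact (mul_dvd_mul h3 h3).trans hy

theorem squarefree_fam (F : Type u) [Field F] [CharZero F] {d : ℕ} (hd : 3 ≤ d) :
    Squarefree (RR d (fam F d)) := by
  have h1 : (fam F d).map ((Bivariate.swap (R := F) : F[X][X] ≃ₐ[F] F[X][X]) : F[X][X] →+* F[X][X]) =
      famS F d := by
    unfold fam famS
    have e1 : ((Bivariate.swap (R := F) : F[X][X] ≃ₐ[F] F[X][X]) : F[X][X] →+* F[X][X]) X = C X :=
      Bivariate.swap_Y
    have e2 : ((Bivariate.swap (R := F) : F[X][X] ≃ₐ[F] F[X][X]) : F[X][X] →+* F[X][X]) (C X) = X :=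
      Bivariate.swap_X
    simp only [Polynomial.map_add, Polynomial.map_mul, Polynomial.map_sub, Polynomial.map_pow,
      map_X, map_C, e1, e2]
  have h2 := RR_map d (fam F d)
    ((Bivariate.swap (R := F) : F[X][X] ≃ₐ[F] F[X][X]) : F[X][X] →+* F[X][X])
  rw [h1] at h2
  have h3 := squarefree_E F hd
  rw [h2] at h3
  intro y hy
  have h4 := map_dvd ((Bivariate.swap (R := F) : F[X][X] ≃ₐ[F] F[X][X]) : F[X][X] →+* F[X][X]) hy
  rw [map_mul] at h4
  have h5 := h3 _ h4
  exact (MulEquiv.isUnit_map (Bivariate.swap (R := F))).1 h5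

end Pool.Agent.HP
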