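import Pool.Agent.Helper13.HP.Defs

/-!
# Block HP-P2a: the discriminant of the family as a polynomial in `T`

`F` is a field of characteristic zero, `d ≥ 3`.  `famS` is the polynomial
`U (x^d - x^(d-1) - x) + x^(d-1) + T` in `x` over `F[U][T]` (the inner variable is `U`, the outer variable is `T`),
`E = RR d famS ∈ F[U][T]`.

`natDegree_E`, `lead_E`.  Let `L` be an algebraically closed field containing `F(U)` and
`g = U (x^d - x^(d-1) - x) + x^(d-1) ∈ L[x]`: the derivative of `g + T` is `g'`, of degree `d - 1` with leading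
coefficient `d U`.  Over `L[T]`:
`RR d f = Res_{d,d-1}(g + T, g') = ± Res_{d-1,d}(g', g + T) = ± (d U)^d ∏_{θ : g'(θ) = 0} (T + g(θ))` (`resultant_comm`,
`resultant_eq_prod_eval` / `resultant_eq_prod_roots_sub` / `resultant_mul_left`, `resultant_C_mul_left`,
`resultant_prod_left` and `resultant_X_sub_C_left`; the roots are counted with multiplicities).

`separable_E1`.  At `U = 1`: `RR d (x^d - x + T)` by the same formula with `g = x^d - x`, `g' = d x^(d-1) - 1`, `g(θ) = θ (θ^(d-1) - 1) =
- (1 - 1/d) θ`, so it is `± d^d ∏_θ (T - (1 - 1/d) θ)` over an algebraically closed field: distinct roots.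
(Another way: `Res(d x^(d-1) - 1, x^d - x + T)`, reduce `x^d - x + T` modulo `g'` to `T - (1 - 1/d) x`.)
-/

universe u

namespace Pool.Agent.HP

open Polynomial Pool.Agent.LT

/-- The family `U (x^d - x^(d-1) - x) + x^(d-1) + T` over `F[U][T]`. -/
noncomputable def famS (F : Type u) [Field F] (d : ℕ) : F[X][X][X] :=
  C (C X) * (X ^ d - X ^ (d - 1) - X) + X ^ (d - 1) + C X

section aux88

variable {L : Type*} [Field L]

private theorem deriv88 [CharZero L] {d : ℕ} (hd : 1 ≤ d) (g : L[X]) (hg : g.natDegree ≤ d) {u : L}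
    (hu : u ≠ 0) (hc : g.coeff d = u) :
    (derivative g).natDegree = d - 1 ∧ (derivative g).leadingCoeff = (d : L) * u := by
  have h1 : (derivative g).coeff (d - 1) = (d : L) * u := by
    rw [coeff_derivative, Nat.sub_add_cancel hd, hc, Nat.cast_sub hd, Nat.cast_one, sub_add_cancel, mul_comm]
  have h2 : (d : L) * u ≠ 0 := mul_ne_zero (Nat.cast_ne_zero.2 (by omega)) hu
  have h3 : (derivative g).natDegree = d - 1 := by
    refine natDegree_eq_of_le_of_coeff_ne_zero ((natDegree_derivative_le g).trans (Nat.sub_le_sub_right hg 1)) ?_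
    rw [h1]
    exact h2
  refine ⟨h3, ?_⟩
  rw [leadingCoeff, h3, h1]

private theorem RR_shift88 {d : ℕ} (g : L[X]) (hg : g.natDegree ≤ d)
    (h1 : (derivative g).natDegree = d - 1) (hs : (derivative g).Splits) :
    RR d (g.map C + C X : L[X][X]) = C ((derivative g).leadingCoeff ^ d) *
      ((((derivative g).roots.map fun θ => -g.eval θ)).map fun a => X - C a).prod := by
  have hinj : Function.Injective (C : L →+* L[X]) := C_injective
  have hder : derivative (g.map C + C X : L[X][X]) = (derivative g).map C := by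
    rw [derivative_add, derivative_C, add_zero, derivative_map]
  have hnd : ((derivative g).map (C : L →+* L[X])).natDegree = d - 1 := by
    rw [natDegree_map_eq_of_injective hinj, h1]
  have hsign : (-1 : L[X]) ^ (d * (d - 1)) = 1 := Even.neg_one_pow (Nat.even_mul_pred_self d)
  have hdeg : (g.map (C : L →+* L[X]) + C X).natDegree ≤ d := by
    refine (natDegree_add_le _ _).trans (max_le (natDegree_map_le.trans hg) ?_)
    rw [natDegree_C]
    exact Nat.zero_le _
  have h2 := resultant_eq_prod_eval ((derivative g).map (C : L →+* L[X])) (g.map C + C X) d hdeg (hs.map _)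
  rw [hnd] at h2
  unfold RR
  rw [hder, resultant_comm, hsign, one_mul, h2, leadingCoeff_map_of_injective hinj, hs.roots_map_of_injective hinj,
    map_pow, Multiset.map_map, Multiset.map_map]
  congr 2
  refine Multiset.map_congr rfl fun θ _ => ?_
  rw [Function.comp_apply, Function.comp_apply, eval_add, eval_C, eval_map, eval₂_at_apply, map_neg, sub_neg_eq_add,
    add_comm]

private theorem famS_map88 (F : Type*) [Field F] (d : ℕ) (φ : F[X] →+* L) :
    (famS F d).map (mapRingHom φ) =
      ((C (φ X) * (X ^ d - X ^ (d - 1) - X) + X ^ (d - 1) : L[X]).map C + C X : L[X][X]) := by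
  unfold famS
  simp only [Polynomial.map_add, Polynomial.map_mul, Polynomial.map_sub, Polynomial.map_pow, map_X, map_C,
    coe_mapRingHom]

private theorem g_deg88 {d : ℕ} (hd : 3 ≤ d) (u : L) :
    (C u * (X ^ d - X ^ (d - 1) - X) + X ^ (d - 1) : L[X]).natDegree ≤ d ∧
      (C u * (X ^ d - X ^ (d - 1) - X) + X ^ (d - 1) : L[X]).coeff d = u := by
  constructor
  · refine (natDegree_add_le _ _).trans (max_le ?_ ?_)
    · refine (natDegree_C_mul_le _ _).trans ((natDegree_sub_le _ _).trans (max_le
        ((natDegree_sub_le _ _).trans (max_le ?_ ?_)) ?_))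
      · exact natDegree_X_pow_le _
      · exact (natDegree_X_pow_le _).trans (by omega)
      · exact natDegree_X_le.trans (by omega)
    · exact (natDegree_X_pow_le _).trans (by omega)
  · rw [coeff_add, coeff_C_mul, coeff_sub, coeff_sub, coeff_X_pow, coeff_X_pow, coeff_X, if_pos rfl,
      if_neg (show ¬ d = d - 1 by omega), if_neg (show ¬ 1 = d by omega)]
    ring

end aux88

private theorem main88 (F : Type u) [Field F] [CharZero F] {d : ℕ} (hd : 3 ≤ d) :
    (RR d (famS F d)).natDegree = d - 1 ∧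
      (RR d (famS F d)).leadingCoeff = C ((d : F) ^ d) * X ^ d := by
  let L := AlgebraicClosure (FractionRing F[X])
  let φ : F[X] →+* L := (algebraMap (FractionRing F[X]) L).comp (algebraMap F[X] (FractionRing F[X]))
  have hφ : Function.Injective φ :=
    (algebraMap (FractionRing F[X]) L).injective.comp (IsFractionRing.injective F[X] (FractionRing F[X]))
  have : CharZero L := charZero_of_injective_ringHom (f := φ.comp (C : F →+* F[X])) (hφ.comp C_injective)
  obtain ⟨g, hg⟩ : ∃ g : L[X], g = C (φ X) * (X ^ d - X ^ (d - 1) - X) + X ^ (d - 1) := ⟨_, rfl⟩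
  have hu : φ X ≠ 0 := by
    rw [Ne, map_eq_zero_iff φ hφ]
    exact X_ne_zero
  obtain ⟨hd1, hd2⟩ := g_deg88 hd (φ X)
  rw [← hg] at hd1 hd2
  obtain ⟨h1, h2⟩ := deriv88 (by omega) g hd1 hu hd2
  have hs : (derivative g).Splits := IsAlgClosed.splits _
  have h3 := RR_shift88 g hd1 h1 hs
  rw [hg, ← famS_map88, RR_map, ← hg, coe_mapRingHom] at h3
  obtain ⟨P, hP⟩ : ∃ P : L[X], P = ((((derivative g).roots.map fun θ => -g.eval θ)).map fun a => X - C a).prod :=
    ⟨_, rfl⟩
  rw [← hP] at h3
  have hPm : P.Monic := by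
    rw [hP]
    exact monic_multiset_prod_of_monic _ _ fun a _ => monic_X_sub_C a
  have hPd : P.natDegree = d - 1 := by
    rw [hP, natDegree_multiset_prod_X_sub_C_eq_card, Multiset.card_map, ← hs.natDegree_eq_card_roots, h1]
  have hlc : (derivative g).leadingCoeff ^ d ≠ 0 := by
    rw [h2]
    exact pow_ne_zero _ (mul_ne_zero (Nat.cast_ne_zero.2 (by omega)) hu)
  constructor
  · rw [← natDegree_map_eq_of_injective hφ, h3, natDegree_C_mul hlc, hPd]
  · apply hφ
    rw [← leadingCoeff_map_of_injective hφ, h3, leadingCoeff_mul, leadingCoeff_C, hPm.leadingCoeff, mul_one, h2,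
      mul_pow, map_mul, map_pow, map_pow, map_natCast, map_pow, map_natCast]

theorem natDegree_E (F : Type u) [Field F] [CharZero F] {d : ℕ} (hd : 3 ≤ d) :
    (RR d (famS F d)).natDegree = d - 1 := (main88 F hd).1

theorem lead_E (F : Type u) [Field F] [CharZero F] {d : ℕ} (hd : 3 ≤ d) :
    ∃ c : F, c ≠ 0 ∧ (RR d (famS F d)).leadingCoeff = C c * X ^ d :=
  ⟨(d : F) ^ d, pow_ne_zero _ (Nat.cast_ne_zero.2 (by omega)), (main88 F hd).2⟩

theorem separable_E1 (F : Type u) [Field F] [CharZero F] {d : ℕ} (hd : 3 ≤ d) :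
    ((RR d (famS F d)).map (evalRingHom 1)).Separable := by
  let L := AlgebraicClosure F
  let φ : F[X] →+* L := (algebraMap F L).comp (evalRingHom 1)
  have : CharZero L := charZero_of_injective_ringHom (algebraMap F L).injective
  have hφX : φ X = 1 := by
    show (algebraMap F L) ((evalRingHom 1) X) = 1
    rw [coe_evalRingHom, eval_X, map_one]
  rw [← separable_map (algebraMap F L), Polynomial.map_map]
  show ((RR d (famS F d)).map φ).Separable
  obtain ⟨g, hg⟩ : ∃ g : L[X], g = C (φ X) * (X ^ d - X ^ (d - 1) - X) + X ^ (d - 1) := ⟨_, rfl⟩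
  have hu : φ X ≠ 0 := by
    rw [hφX]
    exact one_ne_zero
  obtain ⟨hd1, hd2⟩ := g_deg88 hd (φ X)
  rw [← hg] at hd1 hd2
  obtain ⟨h1, h2⟩ := deriv88 (by omega) g hd1 hu hd2
  have hs : (derivative g).Splits := IsAlgClosed.splits _
  have h3 := RR_shift88 g hd1 h1 hs
  rw [hg, ← famS_map88, RR_map, ← hg, coe_mapRingHom] at h3
  have hlc : (derivative g).leadingCoeff ^ d ≠ 0 := by
    rw [h2]
    exact pow_ne_zero _ (mul_ne_zero (Nat.cast_ne_zero.2 (by omega)) hu)
  have hg' : g = X ^ d - X := by
    rw [hg, hφX, C_1]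
    ring
  have hd0 : (d : L) ≠ 0 := Nat.cast_ne_zero.2 (by omega)
  have hdg : derivative g = C (d : L) * X ^ (d - 1) - 1 := by
    rw [hg', derivative_sub, derivative_X_pow, derivative_X]
  have hg0 : derivative g ≠ 0 := by
    intro h
    rw [h, leadingCoeff_zero] at h2
    exact mul_ne_zero hd0 hu h2.symm
  have hroot : ∀ θ ∈ (derivative g).roots, (d : L) * θ ^ (d - 1) = 1 := by
    intro θ hθ
    have h4 := (mem_roots hg0).1 hθ
    rw [IsRoot.def, hdg, eval_sub, eval_mul, eval_C, eval_pow, eval_X, eval_one, sub_eq_zero] at h4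
    exact h4
  -- the derivative is separable
  have hsep : (derivative g).Separable := by
    obtain ⟨m, rfl⟩ : ∃ m, d = m + 2 := ⟨d - 2, by omega⟩
    have hm : ((m + 1 : ℕ) : L) ≠ 0 := Nat.cast_ne_zero.2 (by omega)
    rw [hdg]
    refine ⟨-1, C (((m + 1 : ℕ) : L))⁻¹ * X, ?_⟩
    have h4 : (C (((m + 1 : ℕ) : L))⁻¹ : L[X]) * C ((m + 1 : ℕ) : L) = 1 := by
      rw [← C_mul, inv_mul_cancel₀ hm, C_1]
    rw [derivative_sub, derivative_one, sub_zero, derivative_C_mul, derivative_X_pow]
    have e1 : m + 2 - 1 = m + 1 := rfl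
    rw [e1, Nat.add_sub_cancel, pow_succ X m]
    linear_combination (C (((m + 2 : ℕ) : L)) * X ^ m * X) * h4
  have hnd : (derivative g).roots.Nodup := (nodup_roots_iff_of_splits hg0 hs).2 hsep
  have hval : ∀ θ ∈ (derivative g).roots, -g.eval θ = (1 - (d : L)⁻¹) * θ := by
    intro θ hθ
    have h4 := hroot θ hθ
    have h5 : θ ^ d = θ ^ (d - 1) * θ := by
      rw [← pow_succ, Nat.sub_add_cancel (by omega)]
    have h6 : θ ^ (d - 1) = (d : L)⁻¹ := eq_inv_of_mul_eq_one_right h4
    rw [hg', eval_sub, eval_pow, eval_X, h5, h6]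
    ring
  have hd1' : (1 - (d : L)⁻¹) ≠ 0 := by
    intro h
    have h5 : (d : L) = 1 := by
      have h6 := sub_eq_zero.1 h
      rw [eq_comm, inv_eq_one] at h6
      exact h6
    have h7 : d = 1 := by exact_mod_cast h5
    omega
  have hnd2 : ((derivative g).roots.map fun θ => -g.eval θ).Nodup := by
    refine Multiset.Nodup.map_on ?_ hnd
    intro x hx y hy hxy
    rw [hval x hx, hval y hy] at hxy
    exact mul_left_cancel₀ hd1' hxy
  have hne : (RR d (famS F d)).map φ ≠ 0 := by
    rw [h3]
    refine mul_ne_zero (C_ne_zero.2 hlc) (Monic.ne_zero ?_)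
    exact monic_multiset_prod_of_monic _ _ fun a _ => monic_X_sub_C a
  rw [← nodup_roots_iff_of_splits hne (IsAlgClosed.splits _), h3, roots_C_mul _ hlc, roots_multiset_prod_X_sub_C]
  exact hnd2

end Pool.Agent.HP
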