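import Pool.Agent.Helper13.HP.P2a

/-!
# Block HP-P2b: `U²` does not divide the discriminant of the family

Let `f = famS F d` over `F[U][T]`, `q = d f - x f'`, of degree `≤ d - 1`, with coefficient `q_{d-1} = f_{d-1}`.
By `resultant_add_mul_left` (with `p = - x`, degree one, `g = f'` of degree `≤ d - 1`) and `resultant_C_mul_left`
`d^(d-1) Res_{d,d-1}(f, f') = Res_{d,d-1}(d f, f') = Res_{d,d-1}(q, f') = ± (f')_{d-1} Res_{d-1,d-1}(q, f')`
(`resultant_succ_left_deg`) with `(f')_{d-1} = d U`.  So if `U² ∣ RR d f` then `U` divides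
`Res_{d-1,d-1}(q, f')`, that is, `Res_{d-1,d-1}(q, f') = 0` at `U = 0` (`resultant_map_map`), where
`f = x^(d-1) + T`, `f' = (d-1) x^(d-2)`, `q = x^(d-1) + d T` (over `F[T]`).  But this is
`± Res_{d-1,d-2}(q, f')` (the coefficient of `x^(d-1)` in `q` is one; `resultant_comm`, `resultant_succ_left_deg` or
`resultant_add_right_deg`) `= ± (d-1)^(d-1) (d T)^(d-2)` (`resultant_C_mul_right`, `resultant_X_pow_right`): not zero.
-/

universe u

namespace Pool.Agent.HP

open Polynomial Pool.Agent.LT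

theorem not_sq_dvd_E (F : Type u) [Field F] [CharZero F] {d : ℕ} (hd : 3 ≤ d) :
    ¬ (C X : F[X][X]) ^ 2 ∣ RR d (famS F d) := by
  obtain ⟨e, rfl⟩ : ∃ e, d = e + 3 := ⟨d - 3, by omega⟩
  intro hdvd
  obtain ⟨u, hu⟩ : ∃ u : F[X][X], u = C X := ⟨_, rfl⟩
  obtain ⟨t, ht⟩ : ∃ t : F[X][X], t = X := ⟨_, rfl⟩
  rw [← hu] at hdvd
  have hu0 : u ≠ 0 := by rw [hu]; simp
  have hf : famS F (e + 3) = C u * (X ^ (e + 3) - X ^ (e + 2) - X) + X ^ (e + 2) + C t := by
    rw [famS, hu, ht]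
    rfl
  have hf' : derivative (famS F (e + 3)) = C u * (C ((e : F[X][X]) + 3) * X ^ (e + 2) - C ((e : F[X][X]) + 2) * X ^ (e + 1) - 1) +
      C ((e : F[X][X]) + 2) * X ^ (e + 1) := by
    rw [hf]
    simp only [derivative_add, derivative_sub, derivative_mul, derivative_C, derivative_X_pow, derivative_X]
    push_cast
    simp only [map_add, map_natCast, map_ofNat]
    ring
  obtain ⟨q, hq⟩ : ∃ q : F[X][X][X], q = C (1 - u) * X ^ (e + 2) + C (-((e : F[X][X]) + 2) * u) * X + C (((e : F[X][X]) + 3) * t) := ⟨_, rfl⟩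
  have hqf : C ((e : F[X][X]) + 3) * famS F (e + 3) + derivative (famS F (e + 3)) * (-X) = q := by
    rw [hf', hf, hq]
    simp only [map_add, map_sub, map_mul, map_neg, map_one, map_natCast, map_ofNat]
    ring
  have hnf' : (derivative (famS F (e + 3))).natDegree ≤ e + 2 := by
    rw [hf']
    compute_degree
  have hcf' : (derivative (famS F (e + 3))).coeff (e + 2) = ((e : F[X][X]) + 3) * u := by
    rw [hf']
    simp only [coeff_add, coeff_C_mul, coeff_sub, coeff_X_pow, coeff_one]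
    simp
    ring
  have hnq : q.natDegree ≤ e + 2 := by
    rw [hq]
    compute_degree
  have h1 : ((e : F[X][X]) + 3) ^ (e + 2) * RR (e + 3) (famS F (e + 3)) =
      (-1) ^ (e + 2) * (((e : F[X][X]) + 3) * u) * resultant q (derivative (famS F (e + 3))) (e + 2) (e + 2) := by
    rw [RR, show e + 3 - 1 = e + 2 from rfl, ← resultant_C_mul_left,
      ← resultant_add_mul_left _ _ (-X) (e + 3) (e + 2) (by simp; omega) hnf', hqf, resultant_succ_left_deg _ _ _ _ hnq, hcf']
  have hunit : IsUnit ((e : F[X][X]) + 3) := by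
    have h3 : ((e : F[X][X]) + 3) = C (C ((e : F) + 3)) := by
      simp only [map_add, map_natCast, map_ofNat]
    rw [h3]
    refine (IsUnit.mk0 _ ?_).map (C.comp C : F →+* F[X][X])
    have h4 : ((e + 3 : ℕ) : F) ≠ 0 := Nat.cast_ne_zero.2 (by omega)
    push_cast at h4
    exact h4
  have h2 : u ∣ resultant q (derivative (famS F (e + 3))) (e + 2) (e + 2) := by
    obtain ⟨w, hw⟩ := hdvd
    rw [hw] at h1
    obtain ⟨c, hc⟩ := isUnit_iff_exists_inv.1 hunit
    obtain ⟨ε, hε⟩ : ∃ ε : F[X][X], ε = (-1) ^ (e + 2) := ⟨_, rfl⟩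
    have hε2 : ε * ε = 1 := by
      have h11 : (-1 : F[X][X]) * -1 = 1 := by norm_num
      rw [hε, ← mul_pow, h11, one_pow]
    rw [← hε] at h1
    generalize resultant q (derivative (famS F (e + 3))) (e + 2) (e + 2) = Rq at h1 ⊢
    generalize ((e : F[X][X]) + 3) = k at h1 hc
    have h3 : u * (k ^ (e + 2) * u * w) = u * (ε * k * Rq) := by
      linear_combination h1
    have h4 := mul_left_cancel₀ hu0 h3
    refine ⟨ε * c * (k ^ (e + 2) * w), ?_⟩
    calc Rq = (ε * ε) * (k * c) * Rq := by rw [hε2, hc, one_mul, one_mul]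
      _ = ε * c * (ε * k * Rq) := by ring
      _ = ε * c * (k ^ (e + 2) * u * w) := by rw [h4]
      _ = _ := by ring
  obtain ⟨φ, hφ⟩ : ∃ φ : F[X][X] →+* F[X], φ = mapRingHom (evalRingHom 0) := ⟨_, rfl⟩
  have hφu : φ u = 0 := by rw [hφ, hu]; simp
  have hφt : φ t = X := by rw [hφ, ht]; simp
  have h3 : resultant (q.map φ) ((derivative (famS F (e + 3))).map φ) (e + 2) (e + 2) = 0 := by
    rw [resultant_map_map]
    obtain ⟨w, hw⟩ := h2
    rw [hw, map_mul, hφu, zero_mul]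
  have hqm : q.map φ = X ^ (e + 2) + C (((e : F[X]) + 3) * X) := by
    rw [hq]
    simp [hφu, hφt]
    exact map_ofNat φ 3
  have hfm : (derivative (famS F (e + 3))).map φ = C ((e : F[X]) + 2) * X ^ (e + 1) := by
    rw [hf']
    simp [hφu]
    exact map_ofNat φ 2
  rw [hqm, hfm, resultant_C_mul_right, resultant_add_right_deg _ _ _ (e + 1) 1 (by simp), resultant_X_pow_right _ _ _ (by
    compute_degree)] at h3
  have h4 : (X ^ (e + 2) + C (((e : F[X]) + 3) * X) : F[X][X]).coeff (e + 2) = 1 := by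
    simp [coeff_X_pow, coeff_C]
  have h5 : (X ^ (e + 2) + C (((e : F[X]) + 3) * X) : F[X][X]).coeff 0 = ((e : F[X]) + 3) * X := by
    simp [coeff_X_pow]
  rw [h4, h5] at h3
  have h6 : ((e : F[X]) + 2) ≠ 0 := by
    have : ((e + 2 : ℕ) : F[X]) ≠ 0 := Nat.cast_ne_zero.2 (by omega)
    push_cast at this
    exact this
  have h7 : ((e : F[X]) + 3) ≠ 0 := by
    have : ((e + 3 : ℕ) : F[X]) ≠ 0 := Nat.cast_ne_zero.2 (by omega)
    push_cast at this
    exact this
  have h8 : ((e : F[X]) + 2) ^ (e + 2) * (1 ^ 1 * ((-1) ^ ((e + 2) * (e + 1)) * (((e : F[X]) + 3) * X) ^ (e + 1))) ≠ 0 := by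
    refine mul_ne_zero (pow_ne_zero _ h6) (mul_ne_zero (by simp) (mul_ne_zero ?_ (pow_ne_zero _ (mul_ne_zero h7 X_ne_zero))))
    exact pow_ne_zero _ (by simp)
  exact h8 h3

end Pool.Agent.HP
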