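import Pool.Agent.Helper13.HP.Defs

/-!
# Block HP-P3a: the discriminant of a pencil

`RR d f` is the determinant of the Sylvester matrix of `f` and `f'`, which here is `X • A.map C + B.map C` (`A`,
`B` the Sylvester matrices of `f₁, f₁'` and `f₀, f₀'`), of size `d + (d - 1) = 2 d - 1`: Mathlib's
`Polynomial.coeff_det_X_add_C_card` and `Polynomial.natDegree_det_X_add_C_le`
(`Mathlib/LinearAlgebra/Matrix/Polynomial.lean`).
-/

universe u

namespace Pool.Agent.HP

open Polynomial Pool.Agent.LT

private theorem sylvester_pencil50 {R : Type u} [CommRing R] (f₀ f₁ g₀ g₁ : R[X]) (m n : ℕ) :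
    sylvester (f₀.map C + C X * f₁.map C) (g₀.map C + C X * g₁.map C) m n =
      ((X : R[X]) • (sylvester f₁ g₁ m n).map C + (sylvester f₀ g₀ m n).map C :
        Matrix (Fin (m + n)) (Fin (m + n)) R[X]) := by
  ext1 i j
  rw [Matrix.add_apply, Matrix.smul_apply, Matrix.map_apply, Matrix.map_apply]
  induction j using Fin.addCases with
  | left j =>
    simp only [sylvester, Matrix.of_apply, Fin.addCases_left]
    split_ifs
    · rw [coeff_add, coeff_C_mul, coeff_map, coeff_map, smul_eq_mul, add_comm]
    · simp
  | right j =>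
    simp only [sylvester, Matrix.of_apply, Fin.addCases_right]
    split_ifs
    · rw [coeff_add, coeff_C_mul, coeff_map, coeff_map, smul_eq_mul, add_comm]
    · simp

theorem RR_pencil {R : Type u} [CommRing R] {d : ℕ} (hd : 1 ≤ d) (f₀ f₁ : R[X]) :
    (RR d (f₀.map C + C X * f₁.map C)).natDegree ≤ 2 * d - 1 ∧
      (RR d (f₀.map C + C X * f₁.map C)).coeff (2 * d - 1) = RR d f₁ := by
  have hder : derivative (f₀.map (C : R →+* R[X]) + C X * f₁.map C) =
      (derivative f₀).map C + C X * (derivative f₁).map C := by
    rw [derivative_add, derivative_mul, derivative_C, zero_mul, zero_add, derivative_map,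
      derivative_map]
  have hcard : Fintype.card (Fin (d + (d - 1))) = 2 * d - 1 := by
    rw [Fintype.card_fin]
    omega
  unfold RR resultant
  rw [hder, sylvester_pencil50]
  refine ⟨?_, ?_⟩
  · rw [← hcard]
    exact natDegree_det_X_add_C_le _ _
  · rw [← hcard]
    exact coeff_det_X_add_C_card _ _

end Pool.Agent.HP
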