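import Pool.Agent.Helper13.HP.P2
import Pool.Agent.Helper13.HP.P3a

/-!
# Block HP-P3: a good pencil

`D = RR d (fam F d) ∈ F[T][U]` is squarefree (P2), so `D ≠ 0`.  `f₂ = x^d - x^(d-1) - x`.
Let `S` be the finite set of `exists_goodDisc` for `D` (LG/G6), `S'` a finite set which contains the `α ∈ F` such that
`RR d (f₂ + α) = 0`: for these `f₂ + α` is not separable (it has degree `d`; `resultant_ne_zero`), so
`α = - f₂(θ)` for a root `θ` of `f₂'` in an algebraic closure: finitely many.  Take `α ∉ S ∪ S'`
(`F` is infinite) and `β` outside the finite set for `α`: `shear α β D ∣ Δ^N`, `GoodDisc Δ`.  `shear α β` is an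
automorphism of `F[T][U]` (inverse: `shear (-α) (-β)`; `shear_CC_27`, `shear_CX_27`, `shear_X_27`,
`ringHom_ext_27` in LG/G6), so `shear α β D` is squarefree and divides `Δ`.  So its value at `t = 0`
(`Polynomial.map (evalRingHom 0)`) divides the separable polynomial `Δ(0, U)` and is separable.  It is
`RR d (f₀ + U f₁)` with `f₀ = x^(d-1) + β`, `f₁ = f₂ + α` (`RR_map` for the ring homomorphism
`(mapRingHom (evalRingHom 0)).comp (shear α β)`), and has degree `2 d - 1` by `RR_pencil`.
-/

universe u

namespace Pool.Agent.HP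

open Polynomial Pool.Agent.LT

private theorem sqf24 {R : Type*} [CommRing R] (f g : R →+* R) (hgf : ∀ x, g (f x) = x)
    (hfg : ∀ x, f (g x) = x) {x : R} (hx : Squarefree x) : Squarefree (f x) := by
  intro y hy
  have h1 : g y * g y ∣ x := by
    have h0 := map_dvd g hy
    rwa [map_mul, hgf] at h0
  have h2 := (hx _ h1).map f
  rwa [hfg] at h2

private theorem shear_inv24 {F : Type u} [Field F] (α β : F) (P : F[X][X]) :
    shear α β (shear (-α) (-β) P) = P := by
  have h : (shear α β).comp (shear (-α) (-β)) = RingHom.id _ := by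
    refine ringHom_ext_27 (fun c => ?_) ?_ ?_
    · rw [RingHom.comp_apply, shear_CC_27, shear_CC_27]
      rfl
    · rw [RingHom.comp_apply, shear_CX_27, map_add, map_add, map_mul, shear_CX_27, shear_CC_27,
        shear_CC_27, shear_X_27, RingHom.id_apply]
      simp only [C_neg]
      ring
    · rw [RingHom.comp_apply, shear_X_27, shear_X_27]
      rfl
  exact congrArg (fun φ : F[X][X] →+* F[X][X] => φ P) h

private theorem deg24 {F : Type u} [Field F] {d : ℕ} (hd : 3 ≤ d) (α : F) :
    (X ^ d - X ^ (d - 1) - X + C α : F[X]).natDegree = d := by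
  refine natDegree_eq_of_le_of_coeff_ne_zero ?_ ?_
  · refine (natDegree_add_le _ _).trans (max_le ?_ (by simp))
    refine (natDegree_sub_le _ _).trans (max_le ?_ ?_)
    · refine (natDegree_sub_le _ _).trans (max_le ?_ ?_)
      · rw [natDegree_X_pow]
      · rw [natDegree_X_pow]
        omega
    · rw [natDegree_X]
      omega
  · rw [coeff_add, coeff_sub, coeff_sub, coeff_X_pow, coeff_X_pow, coeff_X, coeff_C, if_pos rfl,
      if_neg (by omega), if_neg (by omega), if_neg (by omega)]
    simp

private theorem fin24 (F : Type u) [Field F] [CharZero F] {d : ℕ} (hd : 3 ≤ d) :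
    {α : F | RR d (X ^ d - X ^ (d - 1) - X + C α : F[X]) = 0}.Finite := by
  classical
  set g : F[X] := X ^ d - X ^ (d - 1) - X with hg
  have hgd : g.natDegree = d := by
    have h0 := deg24 hd (0 : F)
    rwa [C_0, add_zero] at h0
  have hg' : derivative g ≠ 0 := by
    intro h0
    have h1 := derivative_eq_zero.1 h0
    omega
  let T : Set (AlgebraicClosure F) := (fun θ => - aeval θ g) ''
    {θ | θ ∈ ((derivative g).map (algebraMap F (AlgebraicClosure F))).roots.toFinset}
  have hT : T.Finite := (Finset.finite_toSet _).image _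
  refine (hT.preimage ((algebraMap F (AlgebraicClosure F)).injective.injOn)).subset ?_
  intro α hα
  have hα' : RR d (g + C α) = 0 := hα
  have hder : derivative (g + C α) = derivative g := by
    rw [derivative_add, derivative_C, add_zero]
  have hd1 : (g + C α).natDegree = d := deg24 hd α
  have hd2 : (derivative (g + C α)).natDegree = d - 1 := by
    rw [natDegree_derivative, hd1]
  have hnc : ¬ IsCoprime (g + C α) (derivative g) := by
    intro hc
    rw [← hder] at hc
    have h0 := resultant_ne_zero _ _ hc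
    rw [hd1, hd2] at h0
    exact h0 hα'
  rw [isCoprime_iff_aeval_ne_zero_of_isAlgClosed F (AlgebraicClosure F)] at hnc
  push Not at hnc
  obtain ⟨θ, h1, h2⟩ := hnc
  refine ⟨θ, ?_, ?_⟩
  · rw [Set.mem_ofPred_eq, Multiset.mem_toFinset, mem_roots_map hg', ← aeval_def]
    exact h2
  · change - aeval θ g = algebraMap F (AlgebraicClosure F) α
    rw [map_add, aeval_C] at h1
    linear_combination -h1

theorem exists_pencil (F : Type u) [Field F] [CharZero F] {d : ℕ} (hd : 3 ≤ d) :
    ∃ f₀ f₁ : F[X], f₀.natDegree ≤ d ∧ f₁.natDegree ≤ d ∧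
      (RR d (f₀.map C + C X * f₁.map C)).natDegree = 2 * d - 1 ∧
      (RR d (f₀.map C + C X * f₁.map C)).Separable := by
  classical
  have hsq := squarefree_fam F hd
  obtain ⟨S, hS⟩ := exists_goodDisc hsq.ne_zero
  obtain ⟨α, hα⟩ := (S.finite_toSet.union (fin24 F hd)).exists_notMem
  obtain ⟨T, hT⟩ := hS α (fun h => hα (Or.inl h))
  obtain ⟨β, hβ⟩ := Infinite.exists_notMem_finset T
  obtain ⟨Δ, N, hΔ, hdvd⟩ := hT β hβ
  have hsq2 : Squarefree (shear α β (RR d (fam F d))) := by
    refine sqf24 (shear α β) (shear (-α) (-β)) (fun x => ?_) (shear_inv24 α β) hsq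
    have h0 := shear_inv24 (-α) (-β) x
    rwa [neg_neg, neg_neg] at h0
  have hdvd2 : shear α β (RR d (fam F d)) ∣ Δ := hsq2.isRadical N Δ hdvd
  let φ : F[X][X] →+* F[X] := (mapRingHom (evalRingHom 0)).comp (shear α β)
  have hφX : φ X = X := by
    change (shear α β X).map (evalRingHom 0) = X
    rw [shear_X_27, map_X]
  have hφCX : φ (C X) = C α * X + C β := by
    change (shear α β (C X)).map (evalRingHom 0) = _
    rw [shear_CX_27]
    simp
  have hφ : (fam F d).map φ = (X ^ (d - 1) + C β : F[X]).map C +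
      C X * (X ^ d - X ^ (d - 1) - X + C α : F[X]).map C := by
    unfold fam
    simp only [Polynomial.map_add, Polynomial.map_sub, Polynomial.map_mul, Polynomial.map_pow,
      map_X, map_C, hφX, hφCX, C_add, C_mul]
    ring
  have hRR : RR d ((X ^ (d - 1) + C β : F[X]).map C +
      C X * (X ^ d - X ^ (d - 1) - X + C α : F[X]).map C) =
      (shear α β (RR d (fam F d))).map (evalRingHom 0) := by
    rw [← hφ, RR_map]
    rfl
  obtain ⟨hle, hco⟩ := RR_pencil (by omega : 1 ≤ d) (X ^ (d - 1) + C β : F[X])
    (X ^ d - X ^ (d - 1) - X + C α : F[X])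
  refine ⟨X ^ (d - 1) + C β, X ^ d - X ^ (d - 1) - X + C α, ?_, (deg24 hd α).le, ?_, ?_⟩
  · refine (natDegree_add_le _ _).trans (max_le ?_ (by simp))
    rw [natDegree_X_pow]
    omega
  · refine natDegree_eq_of_le_of_coeff_ne_zero hle ?_
    rw [hco]
    exact fun h0 => hα (Or.inr h0)
  · rw [hRR]
    exact hΔ.sep.of_dvd (Polynomial.map_dvd _ hdvd2)

end Pool.Agent.HP
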