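import Pool.Agent.Helper13.HP.P3

/-!
# Block HP-P4: an example in every degree

`f₀`, `f₁` from `exists_pencil` (HP/P3) over `ℚ`, `R₁ = RR d (f₀ + U f₁)` of degree `2 d - 1`, separable.  Let
`γ ∈ ℚ` with `R₁(γ) ≠ 0`.  Substitute `U = X^m + γ`: the ring homomorphism `φ : ℚ[X] → ℚ[X]`, `X ↦ X^m + C γ`.
`b_i = φ ((f₀)_i + U (f₁)_i) = (f₀)_i + (X^m + γ) (f₁)_i`, so `topPoly b = (f₀ + U f₁).map φ` and
`RR d (topPoly b) = φ R₁ = R₁.comp (X^m + C γ)`, of degree `(2 d - 1) m`.  It is separable: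
`a R₁ + b R₁' = 1`, so `φ R₁` and `φ R₁'` are coprime; `φ R₁` is coprime to `X` (its value at `0` is `R₁(γ)`), hence to
`m X^(m-1)`; and `(φ R₁)' = φ R₁' · m X^(m-1)`.
-/

universe u

namespace Pool.Agent.HP

open Polynomial Pool.Agent.LT

private lemma isCoprime_of_isUnit_right80 {R : Type*} [CommSemiring R] {a b : R} (h : IsUnit b) :
    IsCoprime a b := by
  obtain ⟨u, rfl⟩ := h
  exact ⟨0, ((u⁻¹ : Rˣ) : R), by rw [zero_mul, zero_add, Units.inv_mul]⟩

theorem exists_example {d m : ℕ} (hd : 3 ≤ d) (hm : 1 ≤ m) :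
    ∃ b : Fin (d + 1) × Fin (m + 1) → ℚ,
      (RR d (topPoly b)).natDegree = (2 * d - 1) * m ∧ (RR d (topPoly b)).Separable := by
  classical
  obtain ⟨f₀, f₁, h0, h1, hdeg, hsep⟩ := exists_pencil ℚ hd
  set P : ℚ[X][X] := f₀.map C + C X * f₁.map C with hP
  set R₁ : ℚ[X] := RR d P with hR₁
  have hR0 : R₁ ≠ 0 := by
    intro h
    rw [h, natDegree_zero] at hdeg
    omega
  obtain ⟨γ, hγ⟩ : ∃ γ : ℚ, R₁.eval γ ≠ 0 := by
    by_contra hcon
    push Not at hcon
    apply hR0
    apply Polynomial.funext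
    intro r
    rw [hcon r, eval_zero]
  set q : ℚ[X] := X ^ m + C γ with hq
  set φ : ℚ[X] →+* ℚ[X] := compRingHom q with hφ
  have hφa : ∀ p : ℚ[X], φ p = p.comp q := fun p => rfl
  have hqd : q.natDegree = m := natDegree_X_pow_add_C
  have hPc : ∀ i, P.coeff i = C (f₀.coeff i) + X * C (f₁.coeff i) := by
    intro i
    rw [hP, coeff_add, coeff_map, coeff_C_mul, coeff_map]
  have hPd : P.natDegree ≤ d := by
    rw [natDegree_le_iff_coeff_eq_zero]
    intro i hi
    rw [hPc, coeff_eq_zero_of_natDegree_lt (lt_of_le_of_lt h0 hi),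
      coeff_eq_zero_of_natDegree_lt (lt_of_le_of_lt h1 hi)]
    simp
  have hcd : ∀ i, (φ (P.coeff i)).natDegree < m + 1 := by
    intro i
    rw [hφa, natDegree_comp, hqd]
    have h2 : (P.coeff i).natDegree ≤ 1 := by
      rw [hPc, mul_comm]
      refine (natDegree_add_le _ _).trans (max_le ?_ ?_)
      · rw [natDegree_C]
        omega
      · exact (natDegree_C_mul_le _ _).trans natDegree_X_le
    have h3 : (P.coeff i).natDegree * m ≤ 1 * m := Nat.mul_le_mul_right m h2
    omega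
  let b : Fin (d + 1) × Fin (m + 1) → ℚ := fun i => (φ (P.coeff (i.1 : ℕ))).coeff (i.2 : ℕ)
  have htop : topPoly b = P.map φ := by
    unfold topPoly
    have h4 : ∀ i : Fin (d + 1), ∑ j : Fin (m + 1), C (b (i, j)) * X ^ (j : ℕ) = φ (P.coeff (i : ℕ)) := by
      intro i
      rw [Fin.sum_univ_eq_sum_range (fun j => C ((φ (P.coeff (i : ℕ))).coeff j) * X ^ j) (m + 1)]
      exact (as_sum_range_C_mul_X_pow' _ (hcd i)).symm
    simp_rw [h4]
    rw [Fin.sum_univ_eq_sum_range (fun i => C (φ (P.coeff i)) * X ^ i) (d + 1)]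
    have h5 : (P.map φ).natDegree < d + 1 := Nat.lt_succ_of_le (natDegree_map_le.trans hPd)
    rw [as_sum_range_C_mul_X_pow' (P.map φ) h5]
    refine Finset.sum_congr rfl fun i _ => ?_
    rw [coeff_map]
  have hRR : RR d (topPoly b) = R₁.comp q := by
    rw [htop, RR_map, ← hφa]
  refine ⟨b, ?_, ?_⟩
  · rw [hRR, natDegree_comp, hqd, hdeg]
  · rw [hRR]
    unfold Separable
    rw [derivative_comp]
    apply IsCoprime.mul_right
    · have h6 : derivative q = C (m : ℚ) * X ^ (m - 1) := by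
        rw [hq, derivative_add, derivative_C, add_zero, derivative_X_pow]
      rw [h6]
      apply IsCoprime.mul_right
      · apply isCoprime_of_isUnit_right80
        rw [isUnit_C, isUnit_iff_ne_zero]
        exact_mod_cast (by omega : m ≠ 0)
      · apply IsCoprime.pow_right
        apply IsCoprime.symm
        rw [irreducible_X.coprime_iff_not_dvd, X_dvd_iff, coeff_zero_eq_eval_zero, eval_comp, hq,
          eval_add, eval_pow, eval_X, eval_C, zero_pow (by omega), zero_add]
        exact hγ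
    · exact (show IsCoprime R₁ (derivative R₁) from hsep).map φ

end Pool.Agent.HP
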