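import Pool.Agent.Helper13.HP.P4

/-!
# Block HP-P5: the genericity polynomial

Let `A = MvPolynomial ι ℤ`, `ι = Fin (d + 1) × Fin (m + 1)`, `M = (2 d - 1) m`,
`R = RR d (topPoly X) ∈ A[U]` (the coefficients are the variables),
`Ψ = R.coeff M * resultant R R.derivative M (M - 1)`.  For a ring homomorphism `φ : A → F` with
`φ X_i = a i`: `R.map φ = RR d (topPoly a)` (`topPoly_map`, `RR_map`), so
`φ Ψ = (RR d (topPoly a)).coeff M * resultant .. M (M - 1)`.  `natDegree (RR d (topPoly a)) ≤ M`: it is the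
determinant of a matrix of size `2 d - 1` whose entries have degree `≤ m`.  So if `φ Ψ ≠ 0` then the
degree is `M` and the polynomial is separable (characteristic zero: the derivative has degree `M - 1`;
`resultant_eq_zero_iff`).  Conversely the example of P4 shows `Ψ ≠ 0` (`φ : A → ℚ`, `resultant_ne_zero` or
`resultant_eq_zero_iff`, `M ≥ 1`).
-/

universe u

namespace Pool.Agent.HP

open Polynomial Pool.Agent.LT

private lemma natDegree_RR56 {F : Type u} [Field F] {d m : ℕ} (hd : 1 ≤ d)
    (a : Fin (d + 1) × Fin (m + 1) → F) :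
    (RR d (topPoly a)).natDegree ≤ (2 * d - 1) * m := by
  have h1 : TDeg27 (topPoly a) m := by
    unfold topPoly
    refine TDeg27.sum _ fun i _ => ?_
    intro j
    rw [coeff_C_mul, coeff_X_pow]
    split_ifs
    · rw [mul_one]
      refine natDegree_sum_le_of_forall_le _ _ fun q _ => ?_
      exact (natDegree_C_mul_X_pow_le _ _).trans (by omega)
    · simp
  have h2 : TDeg27 (derivative (topPoly a)) m := by
    intro j
    rw [coeff_derivative]
    have e : ((j : F[X]) + 1) = C ((j : F) + 1) := by simp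
    rw [e]
    exact (natDegree_mul_C_le _ _).trans (h1 _)
  have h3 := natDegree_res_27 h1 h2 d (d - 1)
  unfold RR
  refine h3.trans_eq ?_
  congr 1
  omega

private noncomputable def R56 (d m : ℕ) : (MvPolynomial (Fin (d + 1) × Fin (m + 1)) ℤ)[X] :=
  RR d (topPoly fun i => MvPolynomial.X i)

private lemma R56_map {F : Type u} [Field F] {d m : ℕ}
    (φ : MvPolynomial (Fin (d + 1) × Fin (m + 1)) ℤ →+* F) :
    (R56 d m).map φ = RR d (topPoly fun i => φ (MvPolynomial.X i)) := by
  unfold R56
  rw [← topPoly_map _ φ, RR_map]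
  rfl

private lemma key56 {F : Type u} [Field F] [CharZero F] {P : F[X]} {M : ℕ} (hM : 1 ≤ M)
    (hP : P.natDegree ≤ M) :
    P.coeff M * resultant P (derivative P) M (M - 1) ≠ 0 ↔ P.natDegree = M ∧ P.Separable := by
  have key : P.coeff M ≠ 0 → P.natDegree = M ∧ (derivative P).natDegree = M - 1 ∧ P ≠ 0 := by
    intro h
    have h1 : P.natDegree = M := natDegree_eq_of_le_of_coeff_ne_zero hP h
    refine ⟨h1, ?_, ?_⟩
    · refine natDegree_eq_of_le_of_coeff_ne_zero ?_ ?_
      · exact (natDegree_derivative_le P).trans (by omega)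
      · rw [coeff_derivative, Nat.sub_add_cancel hM]
        refine mul_ne_zero h ?_
        have e : (((M - 1 : ℕ) : F) + 1) = ((M - 1 + 1 : ℕ) : F) := by push_cast; ring
        rw [e, Nat.cast_ne_zero]
        omega
    · rintro rfl
      exact h (coeff_zero _)
  constructor
  · intro h
    obtain ⟨h1, h2⟩ := mul_ne_zero_iff.mp h
    obtain ⟨h3, h4, h5⟩ := key h1
    refine ⟨h3, ?_⟩
    by_contra hc
    apply h2
    have h6 : resultant P (derivative P) = 0 :=
      resultant_eq_zero_iff.mpr ⟨Or.inl h5, hc⟩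
    rw [h3, h4] at h6
    exact h6
  · rintro ⟨h1, h2⟩
    have h0 : P ≠ 0 := by
      rintro rfl
      rw [natDegree_zero] at h1
      omega
    have h3 : P.coeff M ≠ 0 := by
      rw [← h1]
      exact leadingCoeff_ne_zero.mpr h0
    obtain ⟨-, h4, -⟩ := key h3
    refine mul_ne_zero h3 ?_
    have h5 : resultant P (derivative P) ≠ 0 := resultant_ne_zero _ _ h2
    rw [h1, h4] at h5
    exact h5

private noncomputable def Psi56 (d m : ℕ) : MvPolynomial (Fin (d + 1) × Fin (m + 1)) ℤ :=
  (R56 d m).coeff ((2 * d - 1) * m) *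
    resultant (R56 d m) (derivative (R56 d m)) ((2 * d - 1) * m) ((2 * d - 1) * m - 1)

private lemma Psi56_ne {F : Type u} [Field F] [CharZero F] {d m : ℕ} (hd : 3 ≤ d) (hm : 1 ≤ m)
    (φ : MvPolynomial (Fin (d + 1) × Fin (m + 1)) ℤ →+* F) :
    φ (Psi56 d m) ≠ 0 ↔
      (RR d (topPoly fun i => φ (MvPolynomial.X i))).natDegree = (2 * d - 1) * m ∧
        (RR d (topPoly fun i => φ (MvPolynomial.X i))).Separable := by
  have hM : 1 ≤ (2 * d - 1) * m := Nat.mul_pos (by omega) hm
  rw [← key56 hM (natDegree_RR56 (by omega) _), ← R56_map]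
  unfold Psi56
  rw [map_mul, coeff_map, derivative_map, resultant_map_map]

theorem exists_Psi {d m : ℕ} (hd : 3 ≤ d) (hm : 1 ≤ m) :
    ∃ Ψ : MvPolynomial (Fin (d + 1) × Fin (m + 1)) ℤ, Ψ ≠ 0 ∧
      ∀ (F : Type u) [Field F] [CharZero F] (a : Fin (d + 1) × Fin (m + 1) → ℤ),
        MvPolynomial.eval a Ψ ≠ 0 →
        (RR d (topPoly fun i => (a i : F))).natDegree = (2 * d - 1) * m ∧
        (RR d (topPoly fun i => (a i : F))).Separable := by
  refine ⟨Psi56 d m, ?_, ?_⟩
  · obtain ⟨b, hb⟩ := exists_example hd hm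
    intro h0
    have h1 := (Psi56_ne hd hm (MvPolynomial.eval₂Hom (Int.castRingHom ℚ) b)).mpr (by
      have e : (fun i => (MvPolynomial.eval₂Hom (Int.castRingHom ℚ) b) (MvPolynomial.X i)) = b := by
        funext i
        exact MvPolynomial.eval₂Hom_X' _ _ _
      rw [e]
      exact hb)
    rw [h0, map_zero] at h1
    exact h1 rfl
  · intro F _ _ a ha
    have h1 := (Psi56_ne (F := F) hd hm ((Int.castRingHom F).comp (MvPolynomial.eval a))).mp (by
      rw [RingHom.comp_apply, eq_intCast]
      exact_mod_cast ha)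
    have e : (fun i => ((Int.castRingHom F).comp (MvPolynomial.eval a)) (MvPolynomial.X i)) =
        fun i => (a i : F) := by
      funext i
      rw [RingHom.comp_apply, MvPolynomial.eval_X, eq_intCast]
    rw [e] at h1
    exact h1

end Pool.Agent.HP
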