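import Mathlib

/-!
# Block HP-P6: counting the zeros of a polynomial in a box

Mathlib: `MvPolynomial.schwartz_zippel_totalDegree` (for `Fin n`) with `S = Finset.Icc (-H) H`,
`#S = 2 H + 1`: the number of the zeros in the box `S^n` is at most `C (2 H + 1)^(n-1)`, `C` the total degree of
the polynomial.  Apply it to `MvPolynomial.rename (e ∘ j) Ψ`, `e : ι ≃ Fin (card ι)`
(`MvPolynomial.rename_injective`: it is not zero; `MvPolynomial.eval_rename`).  If `card ι = 0` the
polynomial is a nonzero constant.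
-/

namespace Pool.Agent.HP

open MvPolynomial

theorem count_zeros {ι κ : Type} [Fintype ι] [DecidableEq ι] (j : κ → ι)
    (hj : Function.Injective j) {Ψ : MvPolynomial κ ℤ} (hΨ : Ψ ≠ 0) :
    ∃ C : ℕ, ∀ H : ℕ, {a : ι → ℤ | (∀ i, |a i| ≤ H) ∧ eval (a ∘ j) Ψ = 0}.ncard ≤
      C * (2 * H + 1) ^ (Fintype.card ι - 1) := by
  classical
  obtain ⟨n, hn⟩ : ∃ n : ℕ, n = Fintype.card ι := ⟨_, rfl⟩
  have e : ι ≃ Fin n := hn ▸ Fintype.equivFin ι
  have hinj : Function.Injective (e ∘ j) := e.injective.comp hj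
  have hp : rename (e ∘ j) Ψ ≠ 0 := by
    intro h
    apply hΨ
    apply rename_injective _ hinj
    rw [h, map_zero]
  refine ⟨(rename (e ∘ j) Ψ).totalDegree + 1, fun H => ?_⟩
  rw [← hn]
  have hS : (Finset.Icc (-(H : ℤ)) H).card = 2 * H + 1 := by
    rw [Int.card_Icc]
    omega
  have hsub : {a : ι → ℤ | (∀ i, |a i| ≤ H) ∧ eval (a ∘ j) Ψ = 0} ⊆
      (((Fintype.piFinset fun _ : Fin n => Finset.Icc (-(H : ℤ)) H).filter
        (fun f => eval f (rename (e ∘ j) Ψ) = 0)).image (fun f => f ∘ e) : Finset (ι → ℤ)) := by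
    rintro a ⟨ha1, ha2⟩
    rw [Finset.mem_coe, Finset.mem_image]
    refine ⟨a ∘ e.symm, ?_, ?_⟩
    · rw [Finset.mem_filter, Fintype.mem_piFinset]
      refine ⟨fun i => ?_, ?_⟩
      · rw [Finset.mem_Icc]
        exact abs_le.1 (ha1 (e.symm i))
      · rw [eval_rename]
        have h1 : (a ∘ e.symm) ∘ (e ∘ j) = a ∘ j := by
          funext i
          simp
        rw [h1, ha2]
    · funext i
      simp
  have h1 := Set.ncard_le_ncard hsub (Finset.finite_toSet _)
  rw [Set.ncard_coe_finset] at h1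
  refine h1.trans (Finset.card_image_le.trans ?_)
  have h2 := schwartz_zippel_totalDegree hp (Finset.Icc (-(H : ℤ)) H)
  rw [hS] at h2
  obtain ⟨c, hc⟩ : ∃ c : ℕ, c = ((Fintype.piFinset fun _ : Fin n => Finset.Icc (-(H : ℤ)) H).filter
        (fun f => eval f (rename (e ∘ j) Ψ) = 0)).card := ⟨_, rfl⟩
  rw [← hc] at h2 ⊢
  rcases Nat.eq_zero_or_pos n with h0 | h0
  · have h3 : c ≤ 1 := by
      rw [hc]
      refine (Finset.card_filter_le _ _).trans ?_
      rw [Fintype.card_piFinset_const, h0, pow_zero]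
    refine h3.trans ?_
    exact Nat.mul_pos (Nat.succ_pos _) (pow_pos (Nat.succ_pos _) _)
  · obtain ⟨n', rfl⟩ : ∃ n', n = n' + 1 := ⟨n - 1, by omega⟩
    rw [Nat.add_sub_cancel]
    have hs : (0 : ℚ≥0) < ((2 * H + 1 : ℕ) : ℚ≥0) := by exact_mod_cast Nat.succ_pos _
    rw [div_le_div_iff₀ (pow_pos hs _) hs] at h2
    have h4 : c * (2 * H + 1) ≤ (rename (e ∘ j) Ψ).totalDegree * (2 * H + 1) ^ (n' + 1) := by
      exact_mod_cast h2
    have h5 : (rename (e ∘ j) Ψ).totalDegree * (2 * H + 1) ^ (n' + 1) =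
        ((rename (e ∘ j) Ψ).totalDegree * (2 * H + 1) ^ n') * (2 * H + 1) := by ring
    rw [h5] at h4
    have h6 := Nat.le_of_mul_le_mul_right h4 (Nat.succ_pos _)
    exact h6.trans (Nat.mul_le_mul_right _ (Nat.le_succ _))

end Pool.Agent.HP
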