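import Pool.Agent.Helper13.LT.L0

/-!
# Block HP-P8: the coordinates at infinity

`F = F₀(t₂, …, t_{r+1})`.  `t₀, t₁` are algebraically independent over `F` (`AlgebraicIndependent` over
`Fin (r + 2)`, `AlgebraicIndependent.sumElim_iff` or `AlgebraicIndependent.adjoin_of_disjoint`, ...; compare the
proof of `exists_base_field` in LG/G10.lean), and `k = F(t₀, t₁)`.  So are `T = 1 / t₀` and `U = t₁ / t₀`:
`F(T, U) = F(t₀, t₁)`; two elements generating an extension of transcendence degree two (up to algebraic
extensions) are algebraically independent; or: `t₁ = U / T`, `t₀ = 1 / T` and the exchange lemma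
(`transcendental_exchange` in SC/C1, `algInd_of` in LG/Step: `U` is transcendental over `F` and `T` is
transcendental over `F(U)` because `F(U)(T) ∋ t₀, t₁`).
-/

universe u

namespace Pool.Agent.HP

open Polynomial Pool.Agent.LT

/-- Two elements are algebraically independent if the first is transcendental and the second is
transcendental over the field generated by the first. -/
private lemma algInd_pair {F k : Type*} [Field F] [Field k] [Algebra F k] {u t : k}
    (hu : Transcendental F u) (ht : Transcendental (IntermediateField.adjoin F {u}) t) :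
    AlgebraicIndependent F ![u, t] := by
  have h1 : AlgebraicIndependent F ![u] := (algebraicIndependent_unique_type_iff).2 hu
  have h2 : Transcendental (Algebra.adjoin F (Set.range ![u])) t := by
    have h3 : Set.range ![u] = {u} := by simp
    rw [h3]
    exact IntermediateField.transcendental_adjoin_iff.1 ht
  have h4 := (h1.option_iff_transcendental t).2 h2
  have h5 := h4.comp (![some 0, none] : Fin 2 → Option (Fin 1))
    (by
      intro i j h
      fin_cases i <;> fin_cases j <;> simp_all)
  have h6 : ((fun o => o.elim t ![u]) ∘ (![some 0, none] : Fin 2 → Option (Fin 1)) : Fin 2 → k) =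
      ![u, t] := by
    funext i
    fin_cases i <;> rfl
  rw [← h6]
  exact h5

/-- The exchange of the coordinates. -/
private lemma algInd_infty {F k : Type*} [Field F] [Field k] [Algebra F k] {t u : k}
    (h : AlgebraicIndependent F ![t, u]) : AlgebraicIndependent F ![t⁻¹, u / t] := by
  have ht : Transcendental F t := h.transcendental 0
  have hu : Transcendental (IntermediateField.adjoin F {t}) u := by
    have h1 := h.transcendental_adjoin (s := {0}) (i := 1) (by simp)
    rw [Set.image_singleton] at h1
    exact IntermediateField.transcendental_adjoin_iff.2 h1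
  have ht0 : t ≠ 0 := by
    rintro rfl
    exact ht isAlgebraic_zero
  have ht' : Transcendental F t⁻¹ := by
    intro h1
    have h2 := h1.inv
    rw [inv_inv] at h2
    exact ht h2
  have hadj : IntermediateField.adjoin F {t⁻¹} = IntermediateField.adjoin F {t} := by
    apply le_antisymm
    · rw [IntermediateField.adjoin_simple_le_iff]
      exact inv_mem (IntermediateField.mem_adjoin_simple_self F t)
    · rw [IntermediateField.adjoin_simple_le_iff]
      have h1 := inv_mem (IntermediateField.mem_adjoin_simple_self F t⁻¹)
      rwa [inv_inv] at h1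
  refine algInd_pair ht' ?_
  rw [hadj]
  intro h1
  apply hu
  have h2 : IsAlgebraic (IntermediateField.adjoin F {t})
      (algebraMap (IntermediateField.adjoin F {t}) k
        ⟨t, IntermediateField.mem_adjoin_simple_self F t⟩) := isAlgebraic_algebraMap _
  have h3 := h1.mul h2
  have h4 : u / t * algebraMap (IntermediateField.adjoin F {t}) k
        ⟨t, IntermediateField.mem_adjoin_simple_self F t⟩ = u := by
    change u / t * t = u
    field_simp
  rwa [h4] at h3

theorem inf_coord {F₀ k : Type u} [Field F₀] [CharZero F₀] [Field k] [Algebra F₀ k] {r : ℕ}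
    (hF : ∃ S : Finset F₀, Subfield.closure (S : Set F₀) = ⊤)
    {t : Fin (r + 2) → k} (ht : AlgebraicIndependent F₀ t)
    (htop : IntermediateField.adjoin F₀ (Set.range t) = ⊤) :
    ∃ F : IntermediateField F₀ k, (∃ S : Finset F, Subfield.closure (S : Set F) = ⊤) ∧
      (∀ i : Fin r, t i.succ.succ ∈ F) ∧ AlgebraicIndependent F ![(t 0)⁻¹, t 1 / t 0] ∧
      IntermediateField.adjoin F {(t 0)⁻¹, t 1 / t 0} = ⊤ := by
  classical
  set F := IntermediateField.adjoin F₀ (Set.range fun i : Fin r => t i.succ.succ) with hFdef
  have hmem : ∀ i : Fin r, t i.succ.succ ∈ F := fun i =>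
    IntermediateField.subset_adjoin _ _ ⟨i, rfl⟩
  have hind : AlgebraicIndependent F ![t 0, t 1] := by
    let φ : Fin 2 ⊕ Fin r → Fin (r + 2) :=
      Sum.elim (fun i => Fin.castLE (by omega) i) (fun i => i.succ.succ)
    have hφ : Function.Injective φ := by
      rintro (i | i) (j | j) hij
      · simp only [φ, Sum.elim_inl] at hij
        rw [Fin.castLE_injective _ hij]
      · simp only [φ, Sum.elim_inl, Sum.elim_inr] at hij
        have := congrArg Fin.val hij
        simp only [Fin.val_castLE, Fin.val_succ] at this
        have := i.2
        omega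
      · simp only [φ, Sum.elim_inl, Sum.elim_inr] at hij
        have := congrArg Fin.val hij
        simp only [Fin.val_castLE, Fin.val_succ] at this
        have := j.2
        omega
      · simp only [φ, Sum.elim_inr, Fin.succ_inj] at hij
        rw [hij]
    have h3 : AlgebraicIndependent F₀ (Sum.elim ![t 0, t 1] (fun i : Fin r => t i.succ.succ)) := by
      have h4 := ht.comp φ hφ
      have e : t ∘ φ = Sum.elim ![t 0, t 1] (fun i : Fin r => t i.succ.succ) := by
        funext i
        rcases i with i | i
        · fin_cases i
          · rfl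
          · rfl
        · rfl
      rw [← e]
      exact h4
    have h4 := (AlgebraicIndependent.sumElim_iff.1 h3).2
    exact IntermediateField.algebraicIndependent_adjoin_iff.2 h4
  have ht0 : t 0 ≠ 0 := ht.ne_zero 0
  refine ⟨F, ?_, hmem, algInd_infty hind, ?_⟩
  · obtain ⟨S, hS⟩ := hF
    set S' : Finset F := S.image (algebraMap F₀ F) ∪
      Finset.univ.image (fun i : Fin r => (⟨t i.succ.succ, hmem i⟩ : F)) with hS'
    refine ⟨S', ?_⟩
    rw [eq_top_iff]
    intro z _
    set C := Subfield.closure (S' : Set F) with hC
    have h0 : ∀ a : F₀, algebraMap F₀ F a ∈ C := by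
      intro a
      have h1 : a ∈ Subfield.closure (S : Set F₀) := by rw [hS]; trivial
      have h2 : Subfield.closure (S : Set F₀) ≤ C.comap (algebraMap F₀ F) := by
        rw [Subfield.closure_le]
        intro b hb
        refine Subfield.subset_closure ?_
        rw [hS', Finset.coe_union]
        left
        rw [Finset.mem_coe, Finset.mem_image]
        exact ⟨b, hb, rfl⟩
      exact h2 h1
    have h1 : F ≤ Subfield.toIntermediateField (C.map F.val.toRingHom)
        (fun x => ⟨algebraMap F₀ F x, h0 x, F.val.commutes x⟩) := by
      refine hFdef.le.trans ?_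
      rw [IntermediateField.adjoin_le_iff]
      rintro _ ⟨i, rfl⟩
      refine ⟨⟨t i.succ.succ, hmem i⟩, Subfield.subset_closure ?_, rfl⟩
      rw [hS', Finset.coe_union]
      right
      rw [Finset.mem_coe, Finset.mem_image]
      exact ⟨i, Finset.mem_univ _, rfl⟩
    obtain ⟨w, hw, hw'⟩ := h1 z.2
    have h2 : w = z := Subtype.ext hw'
    rw [← h2]
    exact hw
  · rw [eq_top_iff]
    intro z _
    set M := IntermediateField.adjoin F {(t 0)⁻¹, t 1 / t 0} with hM
    have m0 : (t 0)⁻¹ ∈ M := IntermediateField.subset_adjoin _ _ (by simp)
    have m1 : t 1 / t 0 ∈ M := IntermediateField.subset_adjoin _ _ (by simp)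
    have n0 : t 0 ∈ M := by
      have := inv_mem m0
      rwa [inv_inv] at this
    have n1 : t 1 ∈ M := by
      have := mul_mem m1 n0
      rwa [div_mul_cancel₀ _ ht0] at this
    have h1 : IntermediateField.adjoin F₀ (Set.range t) ≤ M.restrictScalars F₀ := by
      rw [IntermediateField.adjoin_le_iff]
      rintro _ ⟨i, rfl⟩
      refine Fin.cases n0 (fun j => ?_) i
      refine Fin.cases (motive := fun j : Fin (r + 1) => t j.succ ∈ (M.restrictScalars F₀ : Set k))
        ?_ (fun j => ?_) j
      · rw [Fin.succ_zero_eq_one]
        exact n1
      · exact M.algebraMap_mem ⟨t j.succ.succ, hmem j⟩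
    have h2 : z ∈ IntermediateField.adjoin F₀ (Set.range t) := by rw [htop]; trivial
    exact h1 h2

end Pool.Agent.HP
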