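import Pool.Agent.Helper13.HP.P1
import Pool.Agent.Helper13.HP.P5
import Pool.Agent.Helper13.HP.P6
import Pool.Agent.Helper13.HP.P7
import Pool.Agent.Helper13.HP.P8
import Pool.Agent.Helper13.LT.F5

/-!
# 100 percent of all superelliptic curves
-/

universe u

namespace Pool.Agent.HP

open VC Polynomial Pool.Agent.LT Pool.Agent.GC Pool.Agent.SC Pool.Agent.Helper91.Sect

/-- `f` is separable of degree `d`, and for all `n ≥ 2` which do not divide `m` every section of
`yⁿ = f(x)` over `k` is geometric. -/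
def GoodCurve {k : Type u} [Field k] (m d : ℕ) (f : k[X]) : Prop :=
  f.natDegree = d ∧ f.Separable ∧ ∀ n : ℕ, 2 ≤ n → ¬ n ∣ m →
    ∀ (K : Type u) [Field K] [Algebra k K] (x y : K), Transcendental k x →
    IntermediateField.adjoin k {x, y} = ⊤ → y ^ n = aeval x f →
    ∀ s : GaloisSection k K, IsGeometric s

theorem goodCurve_of {F k : Type u} [Field F] [CharZero F] [Field k] [Algebra F k]
    (hF : ∃ S : Finset F, Subfield.closure (S : Set F) = ⊤)
    {T U : k} (hTU : AlgebraicIndependent F ![T, U])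
    (htop : IntermediateField.adjoin F {T, U} = ⊤)
    {d m : ℕ} (hd : 3 ≤ d) {f : F[X][X][X]} {g : k[X]}
    (hfd : f.natDegree ≤ d) (hfT : ∀ i, TD (f.coeff i) m)
    (h1 : (RR d (f.map (mapRingHom (evalRingHom 0)))).natDegree = (2 * d - 1) * m)
    (h2 : (RR d (f.map (mapRingHom (evalRingHom 0)))).Separable)
    (hg : C (T⁻¹ ^ m) * f.map (ev F T U) = g) : GoodCurve m d g := by
  have hk0 : CharZero k := charZero_of_injective_algebraMap (algebraMap F k).injective
  have hT0 : T ≠ 0 := by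
    rintro rfl
    exact transc_F_t hTU isAlgebraic_zero
  rw [RR_map, coe_mapRingHom] at h1 h2
  have hRR : RR d f ≠ 0 := by
    intro h0
    rw [h0, Polynomial.map_zero] at h2
    exact not_separable_zero h2
  have hΔ : GoodDisc (RR d f) := goodDisc_of (TD_RR (by omega) hfT) h1 h2
  obtain ⟨hdeg, hdvd⟩ := RR_eq (by omega) hfd hRR
  have hinj := ev_injective hTU
  have hevd : (f.map (ev F T U)).natDegree = d := by
    rw [natDegree_map_eq_of_injective hinj, hdeg]
  have hevs : (f.map (ev F T U)).Separable := by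
    refine separable_of_discr (by omega) ?_
    rw [discr_map_of_injective _ hinj _ (by omega)]
    intro h0
    rw [map_eq_zero_iff _ hinj] at h0
    rw [h0, mul_zero, zero_dvd_iff] at hdvd
    exact hRR hdvd
  have hc0 : T⁻¹ ^ m ≠ 0 := pow_ne_zero _ (inv_ne_zero hT0)
  refine ⟨?_, ?_, ?_⟩
  · rw [← hg, natDegree_C_mul hc0, hevd]
  · rw [← hg]
    exact Separable.unit_mul (isUnit_C.2 (isUnit_iff_ne_zero.2 hc0)) hevs
  · intro n hn hm K _ _ x y hx hgen hy s
    let iFK : Algebra F K := ((algebraMap k K).comp (algebraMap F k)).toAlgebra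
    have sFK : IsScalarTower F k K := IsScalarTower.of_algebraMap_eq fun _ => rfl
    refine isGeometric_main hF hTU htop (c₁ := 1) (N := 1) (f := f) (Δ := RR d f) hn hm
      (by omega) hΔ (by rw [one_mul, pow_one]; exact hdvd) hx hgen ?_ s
    rw [map_one, mul_one, hy, ← hg, map_mul, aeval_C, ← mul_assoc, ← map_mul, ← mul_pow,
      mul_inv_cancel₀ hT0, one_pow, map_one, one_mul]

/-- **100 percent of the superelliptic curves satisfy the section conjecture.** -/
theorem superelliptic_percent {F₀ k : Type u} [Field F₀] [CharZero F₀] [Field k] [Algebra F₀ k]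
    (hF : ∃ S : Finset F₀, Subfield.closure (S : Set F₀) = ⊤) {r : ℕ}
    {t : Fin (r + 2) → k} (ht : AlgebraicIndependent F₀ t)
    (htop : IntermediateField.adjoin F₀ (Set.range t) = ⊤)
    {d m : ℕ} (hd : 3 ≤ d) (hm1 : 1 ≤ m) :
    ∃ C : ℕ, ∀ H : ℕ,
      {a : Fin (d + 1) × IdxR (r + 2) m → ℤ | (∀ i, |a i| ≤ H) ∧
        ¬ GoodCurve m d (curvePol t a)}.ncard ≤
        C * (2 * H + 1) ^ (Fintype.card (Fin (d + 1) × IdxR (r + 2) m) - 1) := by
  classical
  obtain ⟨F, hFfg, htF, hTU, hTUtop⟩ := inf_coord hF ht htop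
  have hF0 : CharZero F := charZero_of_injective_algebraMap (algebraMap F₀ F).injective
  obtain ⟨Ψ, hΨ0, hΨ⟩ := exists_Psi.{u} hd hm1
  let j : Fin (d + 1) × Fin (m + 1) → Fin (d + 1) × IdxR (r + 2) m := fun i => (i.1, topIdx r i.2)
  have hj : Function.Injective j := by
    rintro ⟨i, q⟩ ⟨i', q'⟩ h
    have h1 := congrArg Prod.fst h
    have h2 := topIdx_injective r m (congrArg Prod.snd h)
    exact Prod.ext h1 h2
  obtain ⟨C, hC⟩ := count_zeros j hj hΨ0
  refine ⟨C, fun H => (Set.ncard_le_ncard ?_ ?_).trans (hC H)⟩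
  · rintro a ⟨ha, hbad⟩
    refine ⟨ha, ?_⟩
    by_contra hne
    apply hbad
    have ht0 : t 0 ≠ 0 := by
      intro h0
      have h1 := ht.ne_zero 0
      exact h1 h0
    obtain ⟨f, hfd, hfT, hf0, hfg⟩ := exists_model (F := F) t ht0 (fun i => ⟨_, htF i⟩)
      (fun _ => rfl) a
    obtain ⟨h1, h2⟩ := hΨ F (a ∘ j) hne
    refine goodCurve_of hFfg hTU hTUtop hd hfd hfT ?_ ?_ (by rw [inv_inv]; exact hfg)
    · rw [hf0]; exact h1
    · rw [hf0]; exact h2
  · refine Set.Finite.subset (Finset.finite_toSet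
      (Fintype.piFinset fun _ : Fin (d + 1) × IdxR (r + 2) m => Finset.Icc (-(H : ℤ)) H)) ?_
    rintro a ⟨ha, -⟩
    rw [Finset.mem_coe, Fintype.mem_piFinset]
    intro i
    rw [Finset.mem_Icc]
    exact abs_le.1 (ha i)

end Pool.Agent.HP
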